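import Pool.Agent.P.MP_9167e9_an.StW

/-! Random systematic codes for `StCode`. -/

noncomputable section
open scoped Classical Matrix

namespace Pool.Agent.P.MP_9167e9_an.Lab

lemma fib_card {G H : Type} [AddGroup G] [AddGroup H] [Fintype G] [Fintype H] (φ : G →+ H)
    (hφ : Function.Surjective φ) (y : H) :
    (Finset.univ.filter fun g => φ g = y).card * Fintype.card H = Fintype.card G := by
  have h1 : (Finset.univ : Finset G).card =
      ∑ z : H, (Finset.univ.filter fun g => φ g = z).card :=
    Finset.card_eq_sum_card_fiberwise (fun _ _ => by simp)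
  have h2 : ∀ z : H, (Finset.univ.filter fun g => φ g = z).card =
      (Finset.univ.filter fun g => φ g = y).card := fun z =>
    AddMonoidHom.card_fiber_eq_of_mem_range φ (hφ z) (hφ y)
  rw [← Finset.card_univ (α := G), h1]
  simp [h2, mul_comm]

lemma mulVec_surj {F ι : Type} [Field F] [Fintype ι] (u : ι → F) (hu : u ≠ 0) (y : ι → F) :
    ∃ M : Matrix ι ι F, M *ᵥ u = y := by
  obtain ⟨i, hi⟩ := Function.ne_iff.1 hu
  have hi' : u i ≠ 0 := hi
  refine ⟨Matrix.of fun a b => if b = i then y a / u i else 0, funext fun a => ?_⟩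
  simp [Matrix.mulVec, dotProduct, hi']

lemma low_card {F E : Type} [Zero F] [DecidableEq F] [Fintype F] [Fintype E] (k : ℕ) :
    (Finset.univ.filter fun z : E → F => hammingNorm z ≤ k).card ≤
      2 ^ Fintype.card E * Fintype.card F ^ k := by
  have hF : 1 ≤ Fintype.card F := Fintype.card_pos_iff.2 ⟨0⟩
  have hcov : (Finset.univ.filter fun z : E → F => hammingNorm z ≤ k) ⊆
      (Finset.univ.filter fun S : Finset E => S.card ≤ k).biUnion fun S =>
        Fintype.piFinset fun e => if e ∈ S then (Finset.univ : Finset F) else {0} := by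
    intro z hz
    simp only [Finset.mem_filter, Finset.mem_univ, true_and] at hz
    refine Finset.mem_biUnion.2 ⟨Finset.univ.filter fun e => z e ≠ 0, by simpa [hammingNorm] using hz, ?_⟩
    rw [Fintype.mem_piFinset]
    intro e
    by_cases he : z e = 0 <;> simp [he]
  refine (Finset.card_le_card hcov).trans (Finset.card_biUnion_le.trans ?_)
  refine (Finset.sum_le_card_nsmul _ _ (Fintype.card F ^ k) fun S hS => ?_).trans ?_
  · simp only [Finset.mem_filter, Finset.mem_univ, true_and] at hS
    rw [Fintype.card_piFinset]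
    have : ∀ e, (if e ∈ S then (Finset.univ : Finset F) else {0}).card =
        if e ∈ S then Fintype.card F else 1 := fun e => by split_ifs <;> simp
    simp only [this, Finset.prod_ite_mem, Finset.univ_inter, Finset.prod_const]
    exact Nat.pow_le_pow_right hF hS
  · rw [smul_eq_mul]
    refine Nat.mul_le_mul_right _ ((Finset.card_filter_le _ _).trans ?_)
    simp

lemma good_matrix {F ι E : Type} [Field F] [DecidableEq F] [Fintype F] [Fintype ι] [Fintype E]
    (σ : E ≃ ι ⊕ ι) (hF : 1024 ≤ Fintype.card F) :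
    ∃ M : Matrix ι ι F, ∀ z : E → F, z ≠ 0 → 8 * hammingNorm z < Fintype.card E →
      M *ᵥ (fun i => z (σ.symm (Sum.inl i))) ≠ (fun i => z (σ.symm (Sum.inr i))) ∧
      Mᵀ *ᵥ (fun i => z (σ.symm (Sum.inr i))) ≠ -(fun i => z (σ.symm (Sum.inl i))) := by
  by_contra hcon
  push Not at hcon
  set m := Fintype.card ι with hm
  set q := Fintype.card F with hq
  have hE : Fintype.card E = 2 * m := by rw [Fintype.card_congr σ]; simp [hm, two_mul]
  set Z : Finset (E → F) := Finset.univ.filter fun z => z ≠ 0 ∧ hammingNorm z ≤ m / 4 with hZ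
  set B1 : (E → F) → Finset (Matrix ι ι F) := fun z => Finset.univ.filter fun M =>
    M *ᵥ (fun i => z (σ.symm (Sum.inl i))) = (fun i => z (σ.symm (Sum.inr i))) with hB1
  set B2 : (E → F) → Finset (Matrix ι ι F) := fun z => Finset.univ.filter fun M =>
    Mᵀ *ᵥ (fun i => z (σ.symm (Sum.inr i))) = -(fun i => z (σ.symm (Sum.inl i))) with hB2
  have hz0 : ∀ z : E → F, (fun i => z (σ.symm (Sum.inl i))) = 0 →
      (fun i => z (σ.symm (Sum.inr i))) = 0 → z = 0 := by
    intro z h1 h2
    funext e
    obtain ⟨x, rfl⟩ := σ.symm.surjective e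
    rcases x with i | i
    · exact congrFun h1 i
    · exact congrFun h2 i
  set N := Fintype.card (Matrix ι ι F) with hN
  have hb1 : ∀ z ∈ Z, (B1 z).card * q ^ m ≤ N := by
    intro z hz
    simp only [hZ, Finset.mem_filter, Finset.mem_univ, true_and] at hz
    by_cases hu : (fun i => z (σ.symm (Sum.inl i))) = 0
    · have : B1 z = ∅ := by
        ext M
        simp only [hB1, Finset.mem_filter, Finset.mem_univ, true_and, hu, Matrix.mulVec_zero,
          Finset.notMem_empty, iff_false]
        exact fun h => hz.1 (hz0 z hu h.symm)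
      simp [this]
    · have h := fib_card (G := Matrix ι ι F) (H := ι → F)
        (AddMonoidHom.mk' (fun M => M *ᵥ fun i => z (σ.symm (Sum.inl i)))
          (fun a b => Matrix.add_mulVec a b _)) (mulVec_surj _ hu)
        (fun i => z (σ.symm (Sum.inr i)))
      rw [Fintype.card_fun] at h
      refine le_of_eq (Eq.trans ?_ h)
      congr 2
      ext M; simp [hB1]
  have hb2 : ∀ z ∈ Z, (B2 z).card * q ^ m ≤ N := by
    intro z hz
    simp only [hZ, Finset.mem_filter, Finset.mem_univ, true_and] at hz
    by_cases hu : (fun i => z (σ.symm (Sum.inr i))) = 0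
    · have : B2 z = ∅ := by
        ext M
        simp only [hB2, Finset.mem_filter, Finset.mem_univ, true_and, hu, Matrix.mulVec_zero,
          Finset.notMem_empty, iff_false]
        exact fun h => hz.1 (hz0 z (neg_eq_zero.1 h.symm) hu)
      simp [this]
    · have h := fib_card (G := Matrix ι ι F) (H := ι → F)
        (AddMonoidHom.mk' (fun M => Mᵀ *ᵥ fun i => z (σ.symm (Sum.inr i)))
          (fun a b => by rw [Matrix.transpose_add, Matrix.add_mulVec]))
        (fun y => by
          obtain ⟨M, hM⟩ := mulVec_surj _ hu y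
          exact ⟨Mᵀ, by simpa using hM⟩)
        (-(fun i => z (σ.symm (Sum.inl i))))
      rw [Fintype.card_fun] at h
      refine le_of_eq (Eq.trans ?_ h)
      congr 2
      ext M; simp [hB2]
  have hcov : (Finset.univ : Finset (Matrix ι ι F)) ⊆ Z.biUnion fun z => B1 z ∪ B2 z := by
    intro M _
    obtain ⟨z, h0, hw, h⟩ := hcon M
    refine Finset.mem_biUnion.2 ⟨z, ?_, ?_⟩
    · simp only [hZ, Finset.mem_filter, Finset.mem_univ, true_and]
      exact ⟨h0, by omega⟩
    · simp only [hB1, hB2, Finset.mem_union, Finset.mem_filter, Finset.mem_univ, true_and]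
      tauto
  have hm0 : 1 ≤ m := by
    obtain ⟨z, _, hw, _⟩ := hcon 0
    omega
  have hZc : Z.card ≤ 2 ^ (2 * m) * q ^ (m / 4) := by
    refine le_trans (Finset.card_le_card fun z hz => ?_) (hE ▸ low_card (F := F) (E := E) (m / 4))
    simp only [hZ, Finset.mem_filter, Finset.mem_univ, true_and] at hz ⊢
    exact hz.2
  have h1 : N * q ^ m ≤ Z.card * (2 * N) := by
    calc N * q ^ m ≤ (∑ z ∈ Z, (B1 z ∪ B2 z).card) * q ^ m :=
          Nat.mul_le_mul_right _ ((Finset.card_le_card hcov).trans Finset.card_biUnion_le)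
      _ = ∑ z ∈ Z, (B1 z ∪ B2 z).card * q ^ m := Finset.sum_mul _ _ _
      _ ≤ ∑ _z ∈ Z, 2 * N := Finset.sum_le_sum fun z hz => by
          have h1 := hb1 z hz
          have h2 := hb2 z hz
          have h3 := Nat.mul_le_mul_right (q ^ m) (Finset.card_union_le (B1 z) (B2 z))
          rw [add_mul] at h3
          omega
      _ = Z.card * (2 * N) := by simp
  have hN0 : 0 < N := Fintype.card_pos
  have h2 : q ^ m ≤ 2 * Z.card := by
    refine Nat.le_of_mul_le_mul_left (c := N) ?_ hN0
    calc N * q ^ m ≤ Z.card * (2 * N) := h1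
      _ = N * (2 * Z.card) := by ring
  have h3 : q ^ m = q ^ (m - m / 4) * q ^ (m / 4) := by
    rw [← pow_add, Nat.sub_add_cancel (Nat.div_le_self _ _)]
  have h4 : 2 ^ (10 * (m - m / 4)) ≤ q ^ (m - m / 4) := by
    rw [pow_mul]; exact Nat.pow_le_pow_left (by simpa using hF) _
  have h5 : 2 * 2 ^ (2 * m) < 2 ^ (10 * (m - m / 4)) := by
    rw [← pow_succ']; exact Nat.pow_lt_pow_right (by norm_num) (by omega)
  have h6 : 0 < q ^ (m / 4) := pow_pos (by omega) _
  have h7 : 2 * 2 ^ (2 * m) * q ^ (m / 4) < q ^ (m - m / 4) * q ^ (m / 4) :=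
    Nat.mul_lt_mul_of_pos_right (h5.trans_le h4) h6
  rw [mul_assoc] at h7
  omega

theorem code : StCode := by
  intro h E _ hp hh hE
  have : Fact h.Prime := ⟨hp⟩
  obtain ⟨m, hm⟩ := hE
  have σ : E ≃ Fin m ⊕ Fin m := Fintype.equivOfCardEq (by simp [hm])
  obtain ⟨M, hM⟩ := good_matrix (F := ZMod h) σ (by simpa using hh)
  let W : Submodule (ZMod h) (E → ZMod h) :=
    { carrier := {z | M *ᵥ (fun i => z (σ.symm (Sum.inl i))) = fun i => z (σ.symm (Sum.inr i))}
      add_mem' := fun {a b} ha hb => by
        simp only [Set.mem_ofPred_eq] at ha hb ⊢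
        have : (fun i => (a + b) (σ.symm (Sum.inl i))) =
          (fun i => a (σ.symm (Sum.inl i))) + fun i => b (σ.symm (Sum.inl i)) := rfl
        rw [this, Matrix.mulVec_add, ha, hb]; rfl
      zero_mem' := by
        simp only [Set.mem_ofPred_eq]
        exact Matrix.mulVec_zero M
      smul_mem' := fun c a ha => by
        simp only [Set.mem_ofPred_eq] at ha ⊢
        have : (fun i => (c • a) (σ.symm (Sum.inl i))) =
          c • (fun i => a (σ.symm (Sum.inl i))) := rfl
        rw [this, Matrix.mulVec_smul, ha]; rfl }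
  refine ⟨W, fun w hw h0 => ?_, fun u hu h0 => ?_⟩
  · by_contra hc
    exact (hM w h0 (by simpa using hc)).1 hw
  · by_contra hc
    refine (hM u h0 (by simpa using hc)).2 ?_
    funext i
    have h1 := hu (fun e => Sum.elim (Pi.single i 1) (M *ᵥ Pi.single i 1) (σ e))
      (by
        change M *ᵥ _ = _
        simp only [Equiv.apply_symm_apply, Sum.elim_inl, Sum.elim_inr])
    rw [dotProduct, ← Equiv.sum_comp σ.symm, Fintype.sum_sum_type] at h1
    simp only [Equiv.apply_symm_apply, Sum.elim_inl, Sum.elim_inr, Matrix.mulVec_single_one,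
      Pi.single_apply, mul_ite, mul_one, mul_zero, Finset.sum_ite_eq', Finset.mem_univ,
      if_true] at h1
    simp only [Matrix.mulVec, dotProduct, Matrix.transpose_apply, Pi.neg_apply]
    rw [eq_neg_iff_add_eq_zero, add_comm, ← h1]
    congr 1
    exact Finset.sum_congr rfl fun x _ => by simp [mul_comm]

end Pool.Agent.P.MP_9167e9_an.Lab
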