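import Pool.Agent.P.MP_9167e9_an.Lab.Walk

/-! Counting argument of Rosenfeld type for `StLabCross`. -/

noncomputable section
open scoped Classical

namespace Pool.Agent.P.MP_9167e9_an.Lab

section abstract

variable {E A K : Type} [Fintype E] [Fintype A] [Fintype K]

lemma indep (S : Finset E) (w : E → A) (Q : (E → A) → Prop)
    (hQ : ∀ lam lam', (∀ e, e ∉ S → lam e = lam' e) → Q lam → Q lam') :
    (Finset.univ.filter fun lam => (∀ e ∈ S, lam e = w e) ∧ Q lam).card *
      Fintype.card A ^ S.card ≤ (Finset.univ.filter Q).card := by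
  have h1 : Fintype.card A ^ S.card = (Finset.univ : Finset ({x // x ∈ S} → A)).card := by simp
  rw [h1, ← Finset.card_product]
  refine Finset.card_le_card_of_injOn
    (fun p e => if h : e ∈ S then p.2 ⟨e, h⟩ else p.1 e) ?_ ?_
  · intro p hp
    simp only [Finset.coe_product, Finset.coe_filter, Finset.mem_univ, true_and, Set.mem_prod,
      Set.mem_ofPred_eq] at hp ⊢
    exact hQ p.1 _ (fun e he => by simp [he]) hp.1.2
  · intro p hp q hq h
    simp only [Finset.coe_product, Finset.coe_filter, Finset.mem_univ, true_and, Set.mem_prod,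
      Set.mem_ofPred_eq] at hp hq
    refine Prod.ext (funext fun e => ?_) (funext fun e => ?_)
    · by_cases he : e ∈ S
      · rw [hp.1.1 e he, hq.1.1 e he]
      · simpa [he] using congrFun h e
    · simpa [e.2] using congrFun h e.1

variable (S : K → Finset E) (F : K → Finset (E → A))

/-- No constraint supported in `E0` is violated. -/
def Val (E0 : Finset E) (lam : E → A) : Prop :=
  ∀ k, S k ⊆ E0 → ∀ w ∈ F k, ¬ ∀ e ∈ S k, lam e = w e

/-- The number of labellings valid on `E0`. -/
def cnt (E0 : Finset E) : ℕ := (Finset.univ.filter (Val S F E0)).card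

omit [Fintype K] in
lemma cnt_sdiff (E0 : Finset E)
    (ih : ∀ E' : Finset E, E'.card < E0.card → ∀ e, cnt S F E' ≤ 2 * cnt S F (insert e E'))
    (T : Finset E) (hT : T ⊆ E0) : cnt S F (E0 \ T) ≤ 2 ^ T.card * cnt S F E0 := by
  induction T using Finset.induction_on with
  | empty => simp
  | insert x T hx ihT =>
    have hxE : x ∈ E0 := hT (Finset.mem_insert_self _ _)
    have h1 := ihT ((Finset.subset_insert _ _).trans hT)
    have h2 : insert x (E0 \ insert x T) = E0 \ T := by
      ext y
      simp only [Finset.mem_insert, Finset.mem_sdiff, not_or]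
      by_cases hy : y = x
      · subst hy; simp [hxE, hx]
      · simp [hy]
    have h3 : (E0 \ insert x T).card < E0.card :=
      Finset.card_lt_card ⟨Finset.sdiff_subset, fun h => by simpa using (Finset.mem_sdiff.1 (h hxE)).2⟩
    have h4 := ih _ h3 x
    rw [h2] at h4
    rw [Finset.card_insert_of_notMem hx, pow_succ]
    nlinarith

lemma cnt_step (b : ℕ) (hb : 1 ≤ b) (hA : Fintype.card A = 2 * b)
    (hs : ∀ e, ∑ k ∈ Finset.univ.filter (fun k => e ∈ S k),
      ((F k).card : ℝ) / (b : ℝ) ^ (S k).card ≤ 1) :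
    ∀ n, ∀ E0 : Finset E, E0.card = n → ∀ e, cnt S F E0 ≤ 2 * cnt S F (insert e E0) := by
  intro n
  induction n using Nat.strong_induction_on with
  | _ n ih =>
  intro E0 hn e
  by_cases he : e ∈ E0
  · rw [Finset.insert_eq_of_mem he]; omega
  have ih' := cnt_sdiff S F E0 (fun E' h => ih _ (hn ▸ h) E' rfl)
  set K0 : Finset K := Finset.univ.filter fun k => e ∈ S k ∧ S k ⊆ insert e E0 with hK0
  set B : K → (E → A) → Finset (E → A) := fun k w =>
    Finset.univ.filter fun lam => (∀ x ∈ S k, lam x = w x) ∧ Val S F (E0 \ S k) lam with hB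
  have hcov : Finset.univ.filter (Val S F E0) ⊆
      Finset.univ.filter (Val S F (insert e E0)) ∪ K0.biUnion fun k => (F k).biUnion (B k) := by
    intro lam hl
    simp only [Finset.mem_filter, Finset.mem_univ, true_and] at hl
    by_cases hv : Val S F (insert e E0) lam
    · exact Finset.mem_union_left _ (by simpa using hv)
    refine Finset.mem_union_right _ ?_
    unfold Val at hv
    push Not at hv
    obtain ⟨k, hk, w, hw, hm⟩ := hv
    have hek : e ∈ S k := by
      by_contra h
      exact hl k ((Finset.subset_insert_iff_of_notMem h).1 hk) w hw hm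
    refine Finset.mem_biUnion.2 ⟨k, by simp [hK0, hek, hk], Finset.mem_biUnion.2 ⟨w, hw, ?_⟩⟩
    simp only [hB, Finset.mem_filter, Finset.mem_univ, true_and]
    exact ⟨hm, fun k' hk' => hl k' (hk'.trans Finset.sdiff_subset)⟩
  have hbR : (0 : ℝ) < b := by exact_mod_cast hb
  have hBc : ∀ k ∈ K0, ∀ w, ((B k w).card : ℝ) ≤ cnt S F E0 / 2 / (b : ℝ) ^ (S k).card := by
    intro k hk w
    simp only [hK0, Finset.mem_filter, Finset.mem_univ, true_and] at hk
    have h1 := indep (S k) w (Val S F (E0 \ S k)) (fun lam lam' h hv k' hk' w' hw' hm =>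
      hv k' hk' w' hw' fun x hx => (h x (Finset.mem_sdiff.1 (hk' hx)).2).trans (hm x hx))
    have h2 := ih' ((S k).erase e) (Finset.subset_insert_iff.1 hk.2)
    have h3 : E0 \ (S k).erase e = E0 \ S k := by
      ext y
      simp only [Finset.mem_sdiff, Finset.mem_erase, ne_eq, not_and]
      constructor
      · rintro ⟨hy, h⟩; exact ⟨hy, h fun h' => he (h' ▸ hy)⟩
      · rintro ⟨hy, h⟩; exact ⟨hy, fun _ => h⟩
    rw [h3] at h2
    have h4 : ((S k).erase e).card + 1 = (S k).card := Finset.card_erase_add_one hk.1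
    have h5 : (B k w).card * (2 * b) ^ (S k).card ≤
        2 ^ ((S k).erase e).card * cnt S F E0 := by
      refine le_trans ?_ h2
      rw [← hA]
      refine le_trans (le_of_eq ?_) h1
      congr 2
    have h6 : ((B k w).card : ℝ) * (2 * b) ^ (S k).card ≤
        2 ^ ((S k).erase e).card * cnt S F E0 := by exact_mod_cast h5
    rw [le_div_iff₀ (by positivity), le_div_iff₀ (by norm_num)]
    rw [mul_pow, ← h4, pow_succ (2 : ℝ)] at h6
    rw [← h4]
    have h7 : (0 : ℝ) < 2 ^ ((S k).erase e).card := by positivity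
    refine le_of_mul_le_mul_left ?_ h7
    linarith
  have h1 : (cnt S F E0 : ℝ) ≤ cnt S F (insert e E0) +
      ∑ k ∈ K0, ∑ w ∈ F k, ((B k w).card : ℝ) := by
    have : cnt S F E0 ≤ cnt S F (insert e E0) + ∑ k ∈ K0, ∑ w ∈ F k, (B k w).card := by
      refine (Finset.card_le_card hcov).trans ((Finset.card_union_le _ _).trans ?_)
      refine Nat.add_le_add_left (Finset.card_biUnion_le.trans ?_) _
      exact Finset.sum_le_sum fun k _ => Finset.card_biUnion_le
    exact_mod_cast this
  have h2 : ∑ k ∈ K0, ∑ w ∈ F k, ((B k w).card : ℝ) ≤ cnt S F E0 / 2 := by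
    calc _ ≤ ∑ k ∈ K0, (cnt S F E0 / 2 : ℝ) * (((F k).card : ℝ) / (b : ℝ) ^ (S k).card) := by
          refine Finset.sum_le_sum fun k hk => ?_
          refine (Finset.sum_le_sum fun w _ => hBc k hk w).trans (le_of_eq ?_)
          simp only [Finset.sum_const, nsmul_eq_mul]; ring
      _ ≤ ∑ k ∈ Finset.univ.filter (fun k => e ∈ S k),
            (cnt S F E0 / 2 : ℝ) * (((F k).card : ℝ) / (b : ℝ) ^ (S k).card) := by
          refine Finset.sum_le_sum_of_subset_of_nonneg (fun k hk => ?_)
            (fun _ _ _ => by positivity)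
          simp only [hK0, Finset.mem_filter, Finset.mem_univ, true_and] at hk ⊢
          exact hk.1
      _ ≤ cnt S F E0 / 2 := by
          rw [← Finset.mul_sum]
          exact mul_le_of_le_one_right (by positivity) (hs e)
  have h3 : (cnt S F E0 : ℝ) ≤ 2 * cnt S F (insert e E0) := by linarith
  exact_mod_cast h3

lemma rosen (b : ℕ) (hb : 1 ≤ b) (hA : Fintype.card A = 2 * b)
    (h0 : ∀ k, S k = ∅ → F k = ∅)
    (hs : ∀ e, ∑ k ∈ Finset.univ.filter (fun k => e ∈ S k),
      ((F k).card : ℝ) / (b : ℝ) ^ (S k).card ≤ 1) :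
    ∃ lam : E → A, ∀ k, ∀ w ∈ F k, ¬ ∀ e ∈ S k, lam e = w e := by
  have h1 := cnt_sdiff S F Finset.univ
    (fun E' _ => cnt_step S F b hb hA hs _ E' rfl) Finset.univ (Finset.Subset.refl _)
  have hne : Nonempty A := Fintype.card_pos_iff.1 (by omega)
  have h2 : 0 < cnt S F (Finset.univ \ Finset.univ) := by
    refine Finset.card_pos.2 ⟨fun _ => hne.some, ?_⟩
    simp only [Finset.mem_filter, Finset.mem_univ, true_and]
    intro k hk w hw
    rw [h0 k (by simpa using hk)] at hw
    simp at hw
  have h3 : 0 < cnt S F Finset.univ := by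
    rcases Nat.eq_zero_or_pos (cnt S F Finset.univ) with h | h
    · rw [h] at h1; omega
    · exact h
  obtain ⟨lam, hl⟩ := Finset.card_pos.1 h3
  simp only [Finset.mem_filter, Finset.mem_univ, true_and] at hl
  exact ⟨lam, fun k => hl k (Finset.subset_univ _)⟩

end abstract

theorem labCross : StLabCross := by
  intro j g b V I _ _ τ L n Fb hg hb hL hn hsum
  have hbR : (0 : ℝ) < b := by exact_mod_cast hb
  let K : Type := (Σ i : I, {u // u ∈ wds j (L i)}) × V
  let S : K → Finset (V × Fin j) := fun k => (eds τ k.1.2.1 k.2).toFinset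
  let pick : List (V × Fin j) → List (Fin (2 * b)) → (V × Fin j → Fin (2 * b)) := fun l z =>
    if h : ∃ lam : V × Fin j → Fin (2 * b), l.map lam = z then h.choose
    else fun _ => ⟨0, by omega⟩
  let F : K → Finset (V × Fin j → Fin (2 * b)) := fun k =>
    if FreeGroup.IsReduced k.1.2.1 then (Fb k.1.1 k.1.2.1).image (pick (eds τ k.1.2.1 k.2))
    else ∅
  have hSc : ∀ k : K, FreeGroup.IsReduced k.1.2.1 → (S k).card = L k.1.1 := by
    intro k hk
    have hl := len_wds k.1.2.2
    have := (hL k.1.1).2
    simp only [S]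
    rw [List.toFinset_card_of_nodup (eds_nodup τ hg _ hk (by omega) _), eds_length, hl]
  have hF : ∀ k : K, ((F k).card : ℝ) / (b : ℝ) ^ (S k).card ≤ n k.1.1 / (b : ℝ) ^ L k.1.1 := by
    intro k
    by_cases hk : FreeGroup.IsReduced k.1.2.1
    · rw [hSc k hk]
      refine div_le_div_of_nonneg_right ?_ (by positivity)
      simp only [F, if_pos hk]
      exact_mod_cast Finset.card_image_le.trans (hn _ _)
    · simp only [F, if_neg hk, Finset.card_empty, Nat.cast_zero, zero_div]; positivity
  obtain ⟨lam, hlam⟩ := rosen S F b hb (by simp) (fun k hk => by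
      by_cases hr : FreeGroup.IsReduced k.1.2.1
      · have := hSc k hr
        have := (hL k.1.1).1
        simp only [hk, Finset.card_empty] at *; omega
      · simp only [F, if_neg hr]) (fun e => by
      refine le_trans (Finset.sum_le_sum fun k _ => hF k) (le_trans ?_ hsum)
      rw [Finset.sum_filter, Fintype.sum_prod_type, Fintype.sum_sigma]
      refine Finset.sum_le_sum fun i _ => ?_
      have h1 : ∀ u : {u // u ∈ wds j (L i)},
          (∑ v : V, if e ∈ S (⟨i, u⟩, v) then (n i : ℝ) / (b : ℝ) ^ L i else 0) ≤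
            L i * ((n i : ℝ) / (b : ℝ) ^ L i) := by
        intro u
        rw [← Finset.sum_filter, Finset.sum_const, nsmul_eq_mul]
        refine mul_le_mul_of_nonneg_right ?_ (by positivity)
        have h := card_thru τ u.1 e
        rw [len_wds u.2] at h
        have h' : (Finset.univ.filter fun v => e ∈ S (⟨i, u⟩, v)).card ≤ L i := by
          refine le_trans (le_of_eq ?_) h
          congr 1; ext v; simp [S]
        exact_mod_cast h'
      refine (Finset.sum_le_sum (g := fun _ => (L i : ℝ) * ((n i : ℝ) / (b : ℝ) ^ L i))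
        fun u _ => le_trans (le_of_eq (Finset.sum_congr rfl fun v _ => by congr)) (h1 u)).trans ?_
      rw [Finset.sum_const, nsmul_eq_mul, Finset.card_univ, Fintype.card_coe]
      have h2 : ((wds j (L i)).card : ℝ) ≤ (2 * j) ^ L i := by exact_mod_cast card_wds (L i)
      calc _ ≤ (2 * j) ^ L i * (L i * ((n i : ℝ) / (b : ℝ) ^ L i)) :=
            mul_le_mul_of_nonneg_right h2 (by positivity)
        _ = _ := by ring)
  refine ⟨fun v i => lam (v, i), fun i u v hu hl hz => ?_⟩
  rw [labs_eq] at hz
  refine hlam (⟨i, ⟨u, mem_wds _ u hl⟩⟩, v) (pick (eds τ u v) ((eds τ u v).map lam)) ?_ ?_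
  · simp only [F, if_pos hu]
    exact Finset.mem_image_of_mem _ hz
  · have hex : ∃ lam' : V × Fin j → Fin (2 * b), (eds τ u v).map lam' = (eds τ u v).map lam :=
      ⟨lam, rfl⟩
    intro e he
    simp only [pick, dif_pos hex]
    exact (List.map_inj_left.1 hex.choose_spec e (by simpa [S] using he)).symm

end Pool.Agent.P.MP_9167e9_an.Lab
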