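import Pool.Agent.P.MP_9167e9_an.Lab.Self
import Pool.Agent.P.MP_9167e9_an.Lab.Cross
import Pool.Agent.P.MP_9167e9_an.Lab.Code

/-! The modules LAB and CODE. -/

namespace Pool.Agent.P.MP_9167e9_an

theorem pLabSelf : StLabSelf := Lab.labSelf

theorem pLabCross : StLabCross := Lab.labCross

theorem pCode : StCode := Lab.code

end Pool.Agent.P.MP_9167e9_an
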