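import Pool.Agent.P.MP_9167e9_an.Lab.Walk

/-! The first moment argument for `StLabSelf`. -/

noncomputable section
open scoped Classical

namespace Pool.Agent.P.MP_9167e9_an.Lab

/-- Constraints pointing downwards in a ranking are independent. -/
lemma cnt_desc {X A : Type} [Fintype X] [Fintype A] (r : X → ℕ) (P : List (X × X))
    (hn : (P.map Prod.fst).Nodup) (hr : ∀ p ∈ P, r p.2 < r p.1) :
    (Finset.univ.filter fun lam : X → A => ∀ p ∈ P, lam p.1 = lam p.2).card *
      Fintype.card A ^ P.length ≤ Fintype.card A ^ Fintype.card X := by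
  set T : Finset X := (P.map Prod.fst).toFinset with hT
  have hc : T.card = P.length := by rw [hT, List.toFinset_card_of_nodup hn]; simp
  have h1 : (Finset.univ.filter fun lam : X → A => ∀ p ∈ P, lam p.1 = lam p.2).card ≤
      (Finset.univ : Finset ({x // x ∈ Tᶜ} → A)).card := by
    refine Finset.card_le_card_of_injOn (fun lam x => lam x.1) (fun _ _ => by simp) ?_
    intro lam hl lam' hl' h
    simp only [Finset.coe_filter, Finset.mem_univ, true_and, Set.mem_ofPred_eq] at hl hl'
    have key : ∀ n x, r x = n → lam x = lam' x := by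
      intro n
      induction n using Nat.strong_induction_on with
      | _ n ih =>
        intro x hx
        by_cases hxT : x ∈ T
        · simp only [hT, List.mem_toFinset, List.mem_map] at hxT
          obtain ⟨p, hp, rfl⟩ := hxT
          rw [hl p hp, hl' p hp]
          exact ih _ (hx ▸ hr p hp) _ rfl
        · exact congrFun h ⟨x, by simpa using hxT⟩
    funext x; exact key _ x rfl
  have h2 : (Finset.univ : Finset ({x // x ∈ Tᶜ} → A)).card =
      Fintype.card A ^ (Fintype.card X - P.length) := by
    simp [hc]
  have h3 : P.length ≤ Fintype.card X := hc ▸ Finset.card_le_univ T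
  calc _ ≤ Fintype.card A ^ (Fintype.card X - P.length) * Fintype.card A ^ P.length := by
        rw [← h2]; exact Nat.mul_le_mul_right _ h1
    _ = _ := by rw [← pow_add, Nat.sub_add_cancel h3]

/-- At least half of the constraints are independent. -/
lemma cnt_half {X A : Type} [Fintype X] [Fintype A] [Nonempty A] (P : List (X × X))
    (h1 : (P.map Prod.fst).Nodup) (h2 : (P.map Prod.snd).Nodup) (hne : ∀ p ∈ P, p.1 ≠ p.2) :
    (Finset.univ.filter fun lam : X → A => ∀ p ∈ P, lam p.1 = lam p.2).card *
      Fintype.card A ^ ((P.length + 1) / 2) ≤ Fintype.card A ^ Fintype.card X := by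
  set r : X → ℕ := fun x => (Fintype.equivFin X x : ℕ) with hr
  have rinj : Function.Injective r := fun x y h => (Fintype.equivFin X).injective (Fin.ext h)
  have hA : 1 ≤ Fintype.card A := Fintype.card_pos
  set P1 := P.filter fun p => r p.2 < r p.1 with hP1
  set P2 := P.filter fun p => !decide (r p.2 < r p.1) with hP2
  have hlen : P.length = P1.length + P2.length := List.length_eq_length_filter_add _
  by_cases hc : P2.length ≤ P1.length
  · have h := cnt_desc (A := A) r P1 (h1.sublist (List.filter_sublist.map _))
      (fun p hp => by simpa [hP1] using (List.mem_filter.1 hp).2)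
    refine le_trans (Nat.mul_le_mul (Finset.card_le_card fun lam hl => ?_)
      (Nat.pow_le_pow_right hA (by omega))) h
    simp only [Finset.mem_filter, Finset.mem_univ, true_and] at hl ⊢
    exact fun p hp => hl p (List.mem_filter.1 hp).1
  · have h := cnt_desc (A := A) r (P2.map Prod.swap)
      (by
        have : (P2.map Prod.swap).map Prod.fst = P2.map Prod.snd := by simp
        rw [this]; exact h2.sublist (List.filter_sublist.map _))
      (fun p hp => by
        obtain ⟨q, hq, rfl⟩ := List.mem_map.1 hp
        have hq1 := (List.mem_filter.1 hq).1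
        have hq2 : ¬ r q.2 < r q.1 := by simpa using (List.mem_filter.1 hq).2
        have : r q.1 ≠ r q.2 := fun h => hne q hq1 (rinj h)
        simp only [Prod.snd_swap, Prod.fst_swap]; omega)
    refine le_trans (Nat.mul_le_mul (Finset.card_le_card fun lam hl => ?_)
      (Nat.pow_le_pow_right hA (by simp only [List.length_map]; omega))) h
    simp only [Finset.mem_filter, Finset.mem_univ, true_and] at hl ⊢
    intro p hp
    obtain ⟨q, hq, rfl⟩ := List.mem_map.1 hp
    exact (hl q (List.mem_filter.1 hq).1).symm

lemma map_eq_zip {X A : Type} (f : X → A) : ∀ (l l' : List X), l.map f = l'.map f →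
    ∀ p ∈ l.zip l', f p.1 = f p.2
  | [], _, _ => by simp
  | _ :: _, [], _ => by simp
  | x :: l, y :: l', h => by
    simp only [List.map_cons, List.cons.injEq] at h
    intro p hp
    simp only [List.zip_cons_cons, List.mem_cons] at hp
    rcases hp with rfl | hp
    · exact h.1
    · exact map_eq_zip f l l' h.2 p hp

theorem labSelf : StLabSelf := by
  intro j g L a V _ τ hg hL hN
  by_contra hcon
  push Not at hcon
  rcases Nat.eq_zero_or_pos a with rfl | ha
  · rcases Nat.eq_zero_or_pos L with rfl | hL0
    · have hV : Fintype.card V = 0 := by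
        by_contra h
        have : 1 ≤ Fintype.card V ^ 6 := Nat.one_le_pow _ _ (Nat.pos_of_ne_zero h)
        simp only [mul_zero, pow_zero, mul_one] at hN; omega
      have := Fintype.card_eq_zero_iff.1 hV
      obtain ⟨_, v, _⟩ := hcon fun v => isEmptyElim v
      exact isEmptyElim v
    · rw [zero_pow hL0.ne'] at hN; omega
  have : Nonempty (Fin a) := ⟨⟨0, ha⟩⟩
  set K : Finset (List (Lt j) × V × V) :=
    ((wds j L) ×ˢ Finset.univ).filter fun k => FreeGroup.IsReduced k.1 ∧ k.2.1 ≠ k.2.2 with hK
  set bad : List (Lt j) × V × V → Finset (V × Fin j → Fin a) := fun k =>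
    Finset.univ.filter fun lam => ∀ p ∈ (eds τ k.1 k.2.1).zip (eds τ k.1 k.2.2),
      lam p.1 = lam p.2 with hbad
  have hcov : (Finset.univ : Finset (V × Fin j → Fin a)) ⊆ K.biUnion bad := by
    intro lam _
    obtain ⟨u, v, v', hu, hl, hv, h⟩ := hcon fun v i => lam (v, i)
    rw [labs_eq, labs_eq] at h
    refine Finset.mem_biUnion.2 ⟨(u, v, v'), ?_, ?_⟩
    · simp [hK, mem_wds L u hl, hu, hv]
    · simp only [hbad, Finset.mem_filter, Finset.mem_univ, true_and]
      exact map_eq_zip _ _ _ h
  set M := a ^ Fintype.card (V × Fin j) with hM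
  have hb : ∀ k ∈ K, (bad k).card * a ^ ((L + 1) / 2) ≤ M := by
    rintro ⟨u, v, v'⟩ hk
    simp only [hK, Finset.mem_filter, Finset.mem_product, Finset.mem_univ, and_true] at hk
    obtain ⟨hw, hu, hv⟩ := hk
    have hl := len_wds hw
    have e1 := eds_length τ u v
    have e2 := eds_length τ u v'
    have h := cnt_half (A := Fin a) ((eds τ u v).zip (eds τ u v'))
      (by rw [List.map_fst_zip (by omega)]; exact eds_nodup τ hg u hu (by omega) v)
      (by rw [List.map_snd_zip (by omega)]; exact eds_nodup τ hg u hu (by omega) v')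
      (zip_ne τ u hv)
    simp only [List.length_zip, e1, e2, hl, min_self, Fintype.card_fin] at h
    refine le_trans (le_of_eq ?_) h
    congr 2
    ext lam
    simp [hbad]
  have hKc : K.card ≤ (2 * j) ^ L * Fintype.card V ^ 2 := by
    refine (Finset.card_filter_le _ _).trans ?_
    rw [Finset.card_product]
    refine Nat.mul_le_mul (card_wds L) ?_
    simp [sq]
  have h1 : M * a ^ ((L + 1) / 2) ≤ K.card * M := by
    calc M * a ^ ((L + 1) / 2) ≤ (∑ k ∈ K, (bad k).card) * a ^ ((L + 1) / 2) := by
          refine Nat.mul_le_mul_right _ ?_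
          refine le_trans ?_ ((Finset.card_le_card hcov).trans Finset.card_biUnion_le)
          simp [hM]
      _ = ∑ k ∈ K, (bad k).card * a ^ ((L + 1) / 2) := Finset.sum_mul _ _ _
      _ ≤ ∑ _k ∈ K, M := Finset.sum_le_sum hb
      _ = K.card * M := by simp
  have hM0 : 0 < M := pow_pos ha _
  have h2 : a ^ ((L + 1) / 2) ≤ (2 * j) ^ L * Fintype.card V ^ 2 := by
    rw [mul_comm M] at h1
    exact (Nat.le_of_mul_le_mul_right h1 hM0).trans hKc
  have h3 : a ^ L ≤ (a ^ ((L + 1) / 2)) ^ 3 := by
    rw [← pow_mul]; exact Nat.pow_le_pow_right ha (by omega)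
  have h4 := Nat.pow_le_pow_left h2 3
  have h5 : ((2 * j) ^ L * Fintype.card V ^ 2) ^ 3 =
      Fintype.card V ^ 6 * (2 * j) ^ (3 * L) := by ring
  omega

end Pool.Agent.P.MP_9167e9_an.Lab
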