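import Pool.Agent.P.MP_9167e9_an.StW

/-! Edges met along a walk. -/

noncomputable section
open scoped Classical

namespace Pool.Agent.P.MP_9167e9_an.Lab

variable {j : ℕ} {V : Type} (τ : Fin j → Equiv.Perm V)

/-- One step. -/
def st (l : Lt j) (x : V) : V := if l.2 then τ l.1 x else (τ l.1)⁻¹ x

/-- The edge used by the step `l` from `x`. -/
def ed (l : Lt j) (x : V) : V × Fin j := if l.2 then (τ l.1 x, l.1) else (x, l.1)

/-- The edges of a walk. -/
def eds : List (Lt j) → V → List (V × Fin j)
  | [], _ => []
  | l :: u, v => ed τ l (go τ u v) :: eds u v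

lemma go_cons (l : Lt j) (u : List (Lt j)) (v : V) : go τ (l :: u) v = st τ l (go τ u v) := rfl

lemma go_append (u u' : List (Lt j)) (v : V) : go τ (u ++ u') v = go τ u (go τ u' v) := by
  simp [go, List.foldr_append]

lemma st_inj (l : Lt j) : Function.Injective (st τ l) := by
  intro x y h
  unfold st at h
  split_ifs at h
  · exact (τ l.1).injective h
  · exact (τ l.1)⁻¹.injective h

lemma go_inj (u : List (Lt j)) : Function.Injective (go τ u) := by
  induction u with
  | nil => intro x y h; simpa [go] using h
  | cons l u ih => intro x y h; exact ih (st_inj τ l h)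

lemma ed_inj (l : Lt j) : Function.Injective (ed τ l) := by
  intro x y h
  unfold ed at h
  split_ifs at h
  · exact (τ l.1).injective (congrArg Prod.fst h)
  · exact congrArg Prod.fst h

lemma eds_length (u : List (Lt j)) (v : V) : (eds τ u v).length = u.length := by
  induction u with
  | nil => rfl
  | cons l u ih => simp [eds, ih]

lemma labs_eq {A : Type} (lam : V → Fin j → A) (u : List (Lt j)) (v : V) :
    labs τ lam u v = (eds τ u v).map fun e => lam e.1 e.2 := by
  induction u with
  | nil => rfl
  | cons l u ih =>
    simp only [labs, eds, List.map_cons, ih, ed]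
    split_ifs <;> rfl

/-- The two ends of an edge. -/
def En (e : V × Fin j) (x : V) : Prop := x = e.1 ∨ x = (τ e.2)⁻¹ e.1

lemma en_ed (l : Lt j) (x y : V) : En τ (ed τ l x) y ↔ y = x ∨ y = st τ l x := by
  unfold En ed st
  split_ifs
  · simp [or_comm]
  · simp

lemma en_mem (u : List (Lt j)) (v : V) (e : V × Fin j) (he : e ∈ eds τ u v) (y : V)
    (hy : En τ e y) : ∃ a b, u = a ++ b ∧ y = go τ b v := by
  induction u with
  | nil => simp [eds] at he
  | cons l u ih =>
    simp only [eds, List.mem_cons] at he
    rcases he with rfl | he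
    · rcases (en_ed τ l _ y).1 hy with h | h
      · exact ⟨[l], u, rfl, h⟩
      · exact ⟨[], l :: u, rfl, h⟩
    · obtain ⟨a, b, rfl, h⟩ := ih he
      exact ⟨l :: a, b, rfl, h⟩

lemma red_left {A : Type} {a b : List (A × Bool)} (h : FreeGroup.IsReduced (a ++ b)) :
    FreeGroup.IsReduced a := by
  unfold FreeGroup.IsReduced at *
  exact h.left_of_append

lemma red_right {A : Type} {a b : List (A × Bool)} (h : FreeGroup.IsReduced (a ++ b)) :
    FreeGroup.IsReduced b := by
  unfold FreeGroup.IsReduced at *
  exact h.right_of_append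

lemma eds_nodup {g : ℕ} (hg : Girth τ g) (u : List (Lt j)) (hu : FreeGroup.IsReduced u)
    (hl : u.length < g) (v : V) : (eds τ u v).Nodup := by
  induction u with
  | nil => simp [eds]
  | cons l u ih =>
    have hu' : FreeGroup.IsReduced u := red_right (a := [l]) hu
    simp only [List.length_cons] at hl
    simp only [eds, List.nodup_cons]
    refine ⟨fun he => ?_, ih hu' (by omega)⟩
    obtain ⟨a, b, hab, h⟩ := en_mem τ u v _ he (st τ l (go τ u v))
      ((en_ed τ l _ _).2 (Or.inr rfl))
    subst hab
    have h1 : FreeGroup.IsReduced (l :: a) := red_left (b := b) hu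
    refine hg (l :: a) h1 (by simp) (by simp at hl ⊢; omega) (go τ b v) ?_
    rw [go_cons, ← go_append]; exact h

lemma card_thru [Fintype V] (u : List (Lt j)) (e : V × Fin j) :
    (Finset.univ.filter fun v => e ∈ eds τ u v).card ≤ u.length := by
  induction u with
  | nil => simp [eds]
  | cons l u ih =>
    have h1 : (Finset.univ.filter fun v => e = ed τ l (go τ u v)).card ≤ 1 := by
      refine Finset.card_le_one.2 fun x hx y hy => ?_
      simp only [Finset.mem_filter, Finset.mem_univ, true_and] at hx hy
      exact go_inj τ u (ed_inj τ l (hx.symm.trans hy))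
    have h2 : (Finset.univ.filter fun v => e ∈ eds τ (l :: u) v) =
        (Finset.univ.filter fun v => e = ed τ l (go τ u v)) ∪
          (Finset.univ.filter fun v => e ∈ eds τ u v) := by
      ext v; simp [eds]
    rw [h2]
    refine (Finset.card_union_le _ _).trans ?_
    simp only [List.length_cons]; omega

lemma zip_ne (u : List (Lt j)) {v v' : V} (h : v ≠ v') :
    ∀ p ∈ (eds τ u v).zip (eds τ u v'), p.1 ≠ p.2 := by
  induction u with
  | nil => simp [eds]
  | cons l u ih =>
    intro p hp
    simp only [eds, List.zip_cons_cons, List.mem_cons] at hp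
    rcases hp with rfl | hp
    · exact fun h' => h (go_inj τ u (ed_inj τ l h'))
    · exact ih p hp

lemma mem_wds (n : ℕ) (u : List (Lt j)) (hu : u.length = n) : u ∈ wds j n := by
  subst hu
  simp only [wds, Finset.mem_image, Finset.mem_univ, true_and]
  exact ⟨u.get, List.ofFn_get u⟩

lemma len_wds {n : ℕ} {u : List (Lt j)} (hu : u ∈ wds j n) : u.length = n := by
  simp only [wds, Finset.mem_image, Finset.mem_univ, true_and] at hu
  obtain ⟨f, rfl⟩ := hu
  simp

lemma card_wds (n : ℕ) : (wds j n).card ≤ (2 * j) ^ n := by
  refine Finset.card_image_le.trans ?_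
  simp [mul_comm]

end Pool.Agent.P.MP_9167e9_an.Lab
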